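import Pool.Agent.Run7.h282.PM.Iface

/-!
# PM / ANA: the analysis
-/

set_option autoImplicit false

open Finset

namespace Run7.h354.PM

open Run7.h282.PM

/-- step 1: the last increment is small infinitely often -/
theorem ana_step1 (q : ℝ) (P : ℕ → ℕ → ℝ) (hq : 3 ≤ q)
    (hP : ∀ m n, 0 ≤ P m n ∧ P m n ≤ 1)
    (hstar : ∀ m k : ℕ, k ≤ m + 2 →
      P (m + 2) (m + 3) ≤ 1 / q ^ (k + 1) +
        (1 - (Nat.choose (k + 1) 3 : ℝ) * (q - 1) ^ 3 / q ^ (k + 1)) * P (m + 1) (m + 2) +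
        ((Nat.choose (k + 1) 3 : ℝ) * (q - 1) ^ 3 / q ^ (k + 1)) *
          (P m (m + 2) + (P (m + 1) (m + 2) - P m (m + 2)) / q)) :
    ∀ η : ℝ, 0 < η → ∀ K : ℕ, ∃ m, K ≤ m ∧ P (m + 1) (m + 2) - P m (m + 2) ≤ η := by
  intro η hη K
  by_contra hcon
  push Not at hcon
  have hq0 : (0 : ℝ) < q := by linarith
  -- choose k
  obtain ⟨k0, hk0⟩ := exists_nat_gt (4 / η)
  set k : ℕ := k0 + 2 with hk
  have hchoose : (k0 : ℝ) + 1 ≤ (Nat.choose (k + 1) 3 : ℝ) := by
    have h1 : Nat.choose (k + 1) 3 = Nat.choose (k0 + 3) 3 := by rw [hk]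
    have h2 : k0 + 1 ≤ Nat.choose (k0 + 3) 3 := by
      have h3 : Nat.choose (k0 + 3) 3 = Nat.choose (k0 + 2) 2 + Nat.choose (k0 + 2) 3 :=
        Nat.choose_succ_succ' (k0 + 2) 2
      have h4 : Nat.choose (k0 + 2) 2 = Nat.choose (k0 + 1) 1 + Nat.choose (k0 + 1) 2 :=
        Nat.choose_succ_succ' (k0 + 1) 1
      have h5 : Nat.choose (k0 + 1) 1 = k0 + 1 := Nat.choose_one_right _
      omega
    rw [h1]
    exact_mod_cast h2
  set B : ℝ := (Nat.choose (k + 1) 3 : ℝ) * (q - 1) ^ 3 with hB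
  have hB8 : (8 : ℝ) ≤ (q - 1) ^ 3 := by
    have : (2 : ℝ) ≤ q - 1 := by linarith
    have h := pow_le_pow_left₀ (by norm_num : (0 : ℝ) ≤ 2) this 3
    norm_num at h
    linarith
  have hk0p : (0 : ℝ) < (k0 : ℝ) + 1 := by positivity
  have hBbig : 4 / η < B := by
    have h1 : (k0 : ℝ) < B := by
      have : (k0 : ℝ) + 1 ≤ B := by
        rw [hB]
        calc (k0 : ℝ) + 1 ≤ (Nat.choose (k + 1) 3 : ℝ) := hchoose
          _ ≤ (Nat.choose (k + 1) 3 : ℝ) * (q - 1) ^ 3 :=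
            le_mul_of_one_le_right (by positivity) (by linarith)
      linarith
    linarith
  have hBη : 4 ≤ B * η := by
    have := (div_lt_iff₀ hη).1 hBbig
    linarith
  set Q : ℝ := 1 / q ^ (k + 1) with hQ
  have hQpos : 0 < Q := by rw [hQ]; positivity
  -- decrease
  have hdec : ∀ m, max K k ≤ m → P (m + 2) (m + 3) ≤ P (m + 1) (m + 2) - Q := by
    intro m hm
    have hkm : k ≤ m + 2 := le_trans (le_max_right K k) (by omega)
    have hKm : K ≤ m := le_trans (le_max_left K k) hm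
    have h1 := hstar m k hkm
    have h2 := hcon m hKm
    have hw : (Nat.choose (k + 1) 3 : ℝ) * (q - 1) ^ 3 / q ^ (k + 1) = B * Q := by
      rw [hB, hQ]; ring
    rw [hw, ← hQ] at h1
    have h3 : P (m + 2) (m + 3) ≤ Q + P (m + 1) (m + 2)
        - B * Q * ((P (m + 1) (m + 2) - P m (m + 2)) * (1 - 1 / q)) := by
      refine le_trans h1 (le_of_eq ?_)
      ring
    have h4 : (2 : ℝ) / 3 ≤ 1 - 1 / q := by
      have : 1 / q ≤ 1 / 3 := one_div_le_one_div_of_le (by norm_num) hq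
      linarith
    have h5 : 2 ≤ B * ((P (m + 1) (m + 2) - P m (m + 2)) * (1 - 1 / q)) := by
      have hBpos : 0 < B := lt_trans (by positivity) hBbig
      have h6 : η * (2 / 3) ≤ (P (m + 1) (m + 2) - P m (m + 2)) * (1 - 1 / q) :=
        mul_le_mul h2.le h4 (by norm_num) (le_trans hη.le h2.le)
      have h7 : B * (η * (2 / 3)) ≤ B * ((P (m + 1) (m + 2) - P m (m + 2)) * (1 - 1 / q)) :=
        mul_le_mul_of_nonneg_left h6 hBpos.le
      nlinarith
    have h8 : 2 * Q ≤ B * Q * ((P (m + 1) (m + 2) - P m (m + 2)) * (1 - 1 / q)) := by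
      have := mul_le_mul_of_nonneg_right h5 hQpos.le
      calc 2 * Q ≤ B * ((P (m + 1) (m + 2) - P m (m + 2)) * (1 - 1 / q)) * Q := this
        _ = _ := by ring
    linarith
  have hind : ∀ M : ℕ, P (max K k + M + 1) (max K k + M + 2) ≤ 1 - (M : ℝ) * Q := by
    intro M
    induction M with
    | zero => simpa using (hP _ _).2
    | succ M ih =>
      have h := hdec (max K k + M) (by omega)
      have e1 : max K k + (M + 1) + 1 = max K k + M + 2 := by omega
      have e2 : max K k + (M + 1) + 2 = max K k + M + 3 := by omega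
      rw [e1, e2]
      push_cast
      linarith
  obtain ⟨M, hM⟩ := exists_nat_gt (1 / Q)
  have h1 := hind M
  have h2 := (hP (max K k + M + 1) (max K k + M + 2)).1
  have h3 := (div_lt_iff₀ hQpos).1 hM
  linarith

/-- step 2: propagation of small increments -/
theorem ana_step2 (q : ℝ) (P : ℕ → ℕ → ℝ) (hq : 3 ≤ q)
    (hP : ∀ m n, P m n ≤ P (m + 1) n)
    (hdel : ∀ m n, m ≤ n → (1 - q ^ m / q ^ n) * (P (m + 1) n - P m n) ≤ P (m + 2) n - P (m + 1) n)
    (n : ℕ) : ∀ j i : ℕ, i + j ≤ n → P (i + 1) n - P i n ≤ 2 ^ j * (P (i + j + 1) n - P (i + j) n) := by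
  have hq0 : (0 : ℝ) < q := by linarith
  have hone : ∀ i, i < n → P (i + 1) n - P i n ≤ 2 * (P (i + 2) n - P (i + 1) n) := by
    intro i hi
    have h1 := hdel i n hi.le
    have h2 : q ^ i / q ^ n ≤ 1 / 2 := by
      rw [div_le_div_iff₀ (by positivity) (by norm_num)]
      have h3 : q ^ (i + 1) ≤ q ^ n := pow_le_pow_right₀ (by linarith) hi
      rw [pow_succ] at h3
      have h4 : 0 < q ^ i := by positivity
      nlinarith
    have h5 : 0 ≤ P (i + 1) n - P i n := by linarith [hP i n]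
    have h6 : (1 / 2) * (P (i + 1) n - P i n) ≤ (1 - q ^ i / q ^ n) * (P (i + 1) n - P i n) :=
      mul_le_mul_of_nonneg_right (by linarith) h5
    linarith
  intro j
  induction j with
  | zero => intro i _; simp
  | succ j ih =>
    intro i hi
    have h1 := ih i (by omega)
    have h2 := hone (i + j) (by omega)
    have e1 : i + (j + 1) + 1 = i + j + 2 := by omega
    have e2 : i + (j + 1) = i + j + 1 := by omega
    rw [e1, e2, pow_succ]
    have h3 : (0 : ℝ) < 2 ^ j := by positivity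
    have h4 := mul_le_mul_of_nonneg_left h2 h3.le
    calc P (i + 1) n - P i n ≤ 2 ^ j * (P (i + j + 1) n - P (i + j) n) := h1
      _ ≤ 2 ^ j * (2 * (P (i + j + 2) n - P (i + j + 1) n)) := h4
      _ = _ := by ring

/-- step 2': telescoping -/
theorem ana_step2' (q : ℝ) (P : ℕ → ℕ → ℝ) (hq : 3 ≤ q)
    (hP : ∀ m n, P m n ≤ P (m + 1) n)
    (hdel : ∀ m n, m ≤ n → (1 - q ^ m / q ^ n) * (P (m + 1) n - P m n) ≤ P (m + 2) n - P (m + 1) n)
    (n : ℕ) (η : ℝ) (hη : 0 ≤ η) : ∀ j i : ℕ, i + j ≤ n → P (i + j + 1) n - P (i + j) n ≤ η →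
      P (i + j + 1) n - P i n ≤ ((j : ℝ) + 1) * 2 ^ j * η := by
  intro j
  induction j with
  | zero => intro i _ h; simpa using h
  | succ j ih =>
    intro i hi h
    have e1 : i + 1 + j = i + (j + 1) := by omega
    have e2 : i + 1 + j + 1 = i + (j + 1) + 1 := by omega
    have h1 := ih (i + 1) (by omega) (by rw [e1]; exact h)
    rw [e1] at h1
    have h2 := ana_step2 q P hq hP hdel n (j + 1) i hi
    have h3 : (0 : ℝ) < 2 ^ (j + 1) := by positivity
    have h4 := mul_le_mul_of_nonneg_left h h3.le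
    have h5 : P (i + 1) n - P i n ≤ 2 ^ (j + 1) * η := le_trans h2 h4
    have h6 : (((j : ℝ)) + 1) * 2 ^ j * η ≤ ((j : ℝ) + 1) * 2 ^ (j + 1) * η := by
      have : (2 : ℝ) ^ j ≤ 2 ^ (j + 1) := pow_le_pow_right₀ (by norm_num) (by omega)
      gcongr
    push_cast
    have h7 : ((j : ℝ) + 1 + 1) * 2 ^ (j + 1) * η = ((j : ℝ) + 1) * 2 ^ (j + 1) * η
        + 2 ^ (j + 1) * η := by ring
    rw [h7]
    linarith

theorem t_ANA : S_ANA := by
  intro q P hq hP hdel hnear hstar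
  have hq0 : (0 : ℝ) < q := by linarith
  have hmono : ∀ m n, P m n ≤ P (m + 1) n := fun m n => (hP m n).2.2.1
  have h01 : ∀ m n, 0 ≤ P m n ∧ P m n ≤ 1 := fun m n => ⟨(hP m n).1, (hP m n).2.1⟩
  have hs1 := ana_step1 q P hq h01 hstar
  have hgeo : ∀ a b : ℕ, P a (a + b) ≤ (1 / 3) ^ b := by
    intro a b
    have h1 := (hP a (a + b)).2.2.2 (by omega)
    refine le_trans h1 ?_
    have h2 : q ^ a / ((q - 1) * q ^ (a + b)) = 1 / ((q - 1) * q ^ b) := by
      rw [pow_add]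
      field_simp
    rw [h2]
    have h3 : (3 : ℝ) ^ b ≤ (q - 1) * q ^ b := by
      have h4 : (3 : ℝ) ^ b ≤ q ^ b := pow_le_pow_left₀ (by norm_num) hq b
      have h5 : (1 : ℝ) ≤ q - 1 := by linarith
      have h6 : (0 : ℝ) < q ^ b := by positivity
      nlinarith
    have h4 : (0 : ℝ) < 3 ^ b := by positivity
    rw [one_div_pow]
    exact one_div_le_one_div_of_le h4 h3
  have hs3 : ∀ ε : ℝ, 0 < ε → ∀ K : ℕ, ∃ m, K ≤ m ∧ P (m + 1) (m + 2) ≤ ε := by
    intro ε hε K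
    obtain ⟨j, hj⟩ := exists_pow_lt_of_lt_one (half_pos hε) (by norm_num : (1 / 3 : ℝ) < 1)
    set η : ℝ := ε / 2 / (((j : ℝ) + 1) * 2 ^ j) with hη
    have hηpos : 0 < η := by rw [hη]; positivity
    obtain ⟨m, hm, hm2⟩ := hs1 η hηpos (max K j)
    have hKm : K ≤ m := le_trans (le_max_left K j) hm
    have hjm : j ≤ m := le_trans (le_max_right K j) hm
    refine ⟨m, hKm, ?_⟩
    obtain ⟨i, rfl⟩ := Nat.exists_eq_add_of_le hjm
    have e1 : j + i = i + j := Nat.add_comm _ _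
    rw [e1] at hm2 ⊢
    have h1 := ana_step2' q P hq hmono hdel (i + j + 2) η hηpos.le j i (by omega) hm2
    have h2 : ((j : ℝ) + 1) * 2 ^ j * η = ε / 2 := by
      rw [hη]
      have : ((j : ℝ) + 1) * 2 ^ j ≠ 0 := by positivity
      field_simp
    rw [h2] at h1
    have h3 : P i (i + j + 2) ≤ (1 / 3) ^ (j + 2) := by
      have := hgeo i (j + 2)
      rwa [← Nat.add_assoc] at this
    have h4 : ((1 : ℝ) / 3) ^ (j + 2) ≤ (1 / 3) ^ j :=
      pow_le_pow_of_le_one (by norm_num) (by norm_num) (by omega)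
    linarith
  rw [Metric.tendsto_atTop]
  intro ε hε
  obtain ⟨K, hK⟩ := exists_pow_lt_of_lt_one (half_pos hε) (by norm_num : (1 / 3 : ℝ) < 1)
  obtain ⟨m, hm, hm2⟩ := hs3 (ε / 3) (by positivity) K
  refine ⟨m + 1, ?_⟩
  intro n hn
  have h1 := hnear (m + 2) (n + 1) (by omega) (by omega)
  have h2 : P (n + 1 - (m + 2)) (n + 1) ≤ (1 / 3) ^ (m + 2) := by
    have h := hgeo (n + 1 - (m + 2)) (m + 2)
    have e : n + 1 - (m + 2) + (m + 2) = n + 1 := by omega
    rwa [e] at h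
  have h3 : ((1 : ℝ) / 3) ^ (m + 2) ≤ (1 / 3) ^ K :=
    pow_le_pow_of_le_one (by norm_num) (by norm_num) (by omega)
  have e1 : n + 1 - 1 = n := by omega
  have e2 : m + 2 - 1 = m + 1 := by omega
  rw [e1, e2] at h1
  have h4 := (h01 n (n + 1)).1
  rw [Real.dist_eq, sub_zero, abs_of_nonneg h4]
  linarith

end Run7.h354.PM
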