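import Pool.Agent.Run7.h282.PM.Iface

/-!
# PM / PER: the product of the rows is the permanent
-/

set_option autoImplicit false

open Finset

namespace Run7.h354.PM

open Run7.h282.PM

section
variable {F : Type} [Field F] {κ : Type} [DecidableEq κ]

theorem prodv_last : ∀ (m : ℕ) (C : Fin (m + 1) → κ → F) (y : Finset κ → F),
    prodv (m + 1) C y = mulv (C (Fin.last m)) (prodv m (fun i => C i.castSucc) y) := by
  intro m
  induction m with
  | zero => intro C y; rfl
  | succ m ih =>
    intro C y
    have h1 : prodv (m + 2) C y = prodv (m + 1) (fun i => C i.succ) (mulv (C 0) y) := rfl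
    rw [h1, ih]
    rfl

/-- the sum over the injections of `Fin m` with image `S` -/
theorem prodv_one [Fintype κ] : ∀ (m : ℕ) (C : Fin m → κ → F) (S : Finset κ),
    prodv m C (one F κ) S =
      ∑ f : Fin m → κ, if Function.Injective f ∧ univ.image f = S then ∏ i, C i (f i) else 0 := by
  intro m
  induction m with
  | zero =>
    intro C S
    have h1 : ∀ f : Fin 0 → κ, (Function.Injective f ∧ univ.image f = S) ↔ S = ∅ := by
      intro f
      constructor
      · rintro ⟨_, h⟩
        rw [← h]
        simp
      · intro h
        refine ⟨fun a => a.elim0, ?_⟩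
        rw [h]
        simp
    simp only [h1]
    simp [prodv, one]
  | succ m ih =>
    intro C S
    rw [prodv_last]
    have e : ∀ g : Fin (m + 1) → κ → ℕ, True := fun _ => trivial
    rw [← (Fin.snocEquiv (fun _ => κ)).sum_comp, Fintype.sum_prod_type]
    have hL : mulv (C (Fin.last m)) (prodv m (fun i => C i.castSucc) (one F κ)) S
        = ∑ j : κ, ∑ g : Fin m → κ, if j ∈ S ∧ Function.Injective g ∧ univ.image g = S.erase j
            then C (Fin.last m) j * ∏ i, C i.castSucc (g i) else 0 := by
      unfold mulv
      rw [← Finset.sum_filter_add_sum_filter_not univ (fun j => j ∈ S)]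
      have hz : ∑ j ∈ univ.filter (fun j => ¬ j ∈ S), (∑ g : Fin m → κ,
          if j ∈ S ∧ Function.Injective g ∧ univ.image g = S.erase j
            then C (Fin.last m) j * ∏ i, C i.castSucc (g i) else 0) = 0 := by
        refine Finset.sum_eq_zero fun j hj => Finset.sum_eq_zero fun g _ => ?_
        rw [Finset.mem_filter] at hj
        rw [if_neg (fun h => hj.2 h.1)]
      rw [hz, add_zero]
      have hS : univ.filter (fun j => j ∈ S) = S := by
        ext j; simp
      rw [hS]
      refine Finset.sum_congr rfl fun j hj => ?_
      rw [ih, Finset.mul_sum]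
      refine Finset.sum_congr rfl fun g _ => ?_
      by_cases h : Function.Injective g ∧ univ.image g = S.erase j
      · rw [if_pos h, if_pos ⟨hj, h⟩]
      · rw [if_neg h, if_neg (fun h' => h h'.2), mul_zero]
    rw [hL]
    refine Finset.sum_congr rfl fun j _ => Finset.sum_congr rfl fun g _ => ?_
    have hsn : (Fin.snocEquiv (fun _ => κ)) (j, g) = Fin.snoc (α := fun _ => κ) g j := rfl
    rw [hsn]
    have himg : univ.image (Fin.snoc (α := fun _ => κ) g j : Fin (m + 1) → κ)
        = insert j (univ.image g) := by
      ext a
      simp only [Finset.mem_image, Finset.mem_univ, true_and, Finset.mem_insert]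
      constructor
      · rintro ⟨i, hi⟩
        refine Fin.lastCases ?_ ?_ i (motive := fun i => Fin.snoc (α := fun _ => κ) g j i = a →
          a = j ∨ ∃ i, g i = a) hi
        · intro h
          left
          rw [Fin.snoc_last] at h
          exact h.symm
        · intro i h
          right
          rw [Fin.snoc_castSucc] at h
          exact ⟨i, h⟩
      · rintro (h | ⟨i, h⟩)
        · exact ⟨Fin.last m, by rw [Fin.snoc_last, h]⟩
        · exact ⟨i.castSucc, by rw [Fin.snoc_castSucc, h]⟩
    have hinj : Function.Injective (Fin.snoc (α := fun _ => κ) g j : Fin (m + 1) → κ) ↔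
        Function.Injective g ∧ j ∉ univ.image g := by
      constructor
      · intro h
        refine ⟨fun a b hab => ?_, fun hj => ?_⟩
        · have : (Fin.snoc (α := fun _ => κ) g j : Fin (m + 1) → κ) a.castSucc =
              (Fin.snoc (α := fun _ => κ) g j : Fin (m + 1) → κ) b.castSucc := by
            rw [Fin.snoc_castSucc, Fin.snoc_castSucc]; exact hab
          exact Fin.castSucc_injective m (h this)
        · rw [Finset.mem_image] at hj
          obtain ⟨i, _, hi⟩ := hj
          have : (Fin.snoc (α := fun _ => κ) g j : Fin (m + 1) → κ) i.castSucc =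
              (Fin.snoc (α := fun _ => κ) g j : Fin (m + 1) → κ) (Fin.last m) := by
            rw [Fin.snoc_castSucc, Fin.snoc_last]; exact hi
          exact (Fin.castSucc_lt_last i).ne (h this)
      · rintro ⟨h1, h2⟩ a b hab
        refine Fin.lastCases (motive := fun a => Fin.snoc (α := fun _ => κ) g j a =
          Fin.snoc (α := fun _ => κ) g j b → a = b) ?_ ?_ a hab
        · refine Fin.lastCases (motive := fun b => Fin.snoc (α := fun _ => κ) g j (Fin.last m) =
            Fin.snoc (α := fun _ => κ) g j b → Fin.last m = b) ?_ ?_ b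
          · intro _; rfl
          · intro i hi
            rw [Fin.snoc_castSucc, Fin.snoc_last] at hi
            exact absurd (Finset.mem_image.2 ⟨i, Finset.mem_univ _, hi.symm⟩) h2
        · intro k
          refine Fin.lastCases (motive := fun b => Fin.snoc (α := fun _ => κ) g j k.castSucc =
            Fin.snoc (α := fun _ => κ) g j b → k.castSucc = b) ?_ ?_ b
          · intro hi
            rw [Fin.snoc_castSucc, Fin.snoc_last] at hi
            exact absurd (Finset.mem_image.2 ⟨k, Finset.mem_univ _, hi⟩) h2
          · intro i hi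
            rw [Fin.snoc_castSucc, Fin.snoc_castSucc] at hi
            rw [h1 hi]
    have hiff : (Function.Injective (Fin.snoc (α := fun _ => κ) g j : Fin (m + 1) → κ) ∧
        univ.image (Fin.snoc (α := fun _ => κ) g j : Fin (m + 1) → κ) = S) ↔
        (j ∈ S ∧ Function.Injective g ∧ univ.image g = S.erase j) := by
      rw [hinj, himg]
      constructor
      · rintro ⟨⟨h1, h2⟩, h3⟩
        refine ⟨by rw [← h3]; exact Finset.mem_insert_self _ _, h1, ?_⟩
        rw [← h3, Finset.erase_insert h2]
      · rintro ⟨h1, h2, h3⟩
        refine ⟨⟨h2, ?_⟩, ?_⟩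
        · rw [h3]; exact Finset.notMem_erase _ _
        · rw [h3, Finset.insert_erase h1]
    have hprod : (∏ i, C i ((Fin.snoc (α := fun _ => κ) g j : Fin (m + 1) → κ) i))
        = C (Fin.last m) j * ∏ i, C i.castSucc (g i) := by
      rw [Fin.prod_univ_castSucc, mul_comm]
      congr 1
      · rw [Fin.snoc_last]
      · refine Finset.prod_congr rfl fun i _ => ?_
        rw [Fin.snoc_castSucc]
    rw [hprod]
    by_cases h : j ∈ S ∧ Function.Injective g ∧ univ.image g = S.erase j
    · rw [if_pos h, if_pos (hiff.2 h)]
    · rw [if_neg h, if_neg (fun h' => h (hiff.1 h'))]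

end

theorem t_PER : S_PER := by
  intro F _ n C
  rw [prodv_one, ← Matrix.permanent_transpose, Matrix.permanent]
  rw [← Finset.sum_filter]
  symm
  refine Finset.sum_bij (fun (σ : Equiv.Perm (Fin n)) _ => (σ : Fin n → Fin n)) ?_ ?_ ?_ ?_
  · intro σ _
    rw [Finset.mem_filter]
    refine ⟨Finset.mem_univ _, σ.injective, ?_⟩
    exact Finset.image_univ_of_surjective σ.surjective
  · intro σ _ τ _ h
    exact DFunLike.coe_injective h
  · intro f hf
    rw [Finset.mem_filter] at hf
    exact ⟨Equiv.ofBijective f (Finite.injective_iff_bijective.1 hf.2.1), Finset.mem_univ _, rfl⟩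
  · intro σ _
    rfl

end Run7.h354.PM
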